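import Mathlib

/-!
Deterministic one-round protocols for detecting an induced path on three vertices. The input of a
vertex is its closed neighbourhood, given as a set of vertices.
-/

namespace Pool.Agent.Lib.MP_5350f3_lc

open Classical in
/-- The closed neighbourhood of `i`. -/
noncomputable def closedNbhd {n : ℕ} (G : SimpleGraph (Fin n)) (i : Fin n) : Finset (Fin n) :=
  Finset.univ.filter fun j => j = i ∨ G.Adj i j

/-- `G` contains an induced path on three vertices. -/
def HasInducedP3 {n : ℕ} (G : SimpleGraph (Fin n)) : Prop :=
  ∃ a b c, G.Adj a b ∧ G.Adj b c ∧ a ≠ c ∧ ¬G.Adj a c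

/-- The local functions `μ` and the referee `R` decide whether the graph has an induced `P₃`. -/
def Solves {n : ℕ} (μ : Fin n → Finset (Fin n) → List Bool)
    (R : (Fin n → List Bool) → Bool) : Prop :=
  ∀ G : SimpleGraph (Fin n), R (fun i => μ i (closedNbhd G i)) = true ↔ HasInducedP3 G

/-- Two inputs with the same message keep the same message when the same new vertices are added
to both. -/
def Mergeable {n : ℕ} (μ : Fin n → Finset (Fin n) → List Bool) : Prop :=
  ∀ (i : Fin n) (P P' C : Finset (Fin n)), i ∈ P → i ∈ P' → Disjoint P C → Disjoint P' C →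
    μ i P = μ i P' → μ i (P ∪ C) = μ i (P' ∪ C)

end Pool.Agent.Lib.MP_5350f3_lc
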