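import Pool.Agent.Lib.MP_5350f3_lc.Defs

/-!
Local functions whose message classes are cut out by polynomials of low degree.
-/

namespace Pool.Agent.Lib.MP_5350f3_lc

/-- The characteristic vector of a set of vertices, with entries in `F`. -/
def charVec (F : Type) [Field F] {n : ℕ} (A : Finset (Fin n)) : Fin n → F :=
  fun w => if w ∈ A then 1 else 0

/-- For every input `A` of the vertex `v` some polynomial over `F` of degree at most `D` is nonzero
at `A` and vanishes at all inputs of the same size that give another message. -/
def LowDegree (F : Type) [Field F] (D : ℕ) {n : ℕ} (μ : Fin n → Finset (Fin n) → List Bool)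
    (v : Fin n) : Prop :=
  ∀ A : Finset (Fin n), v ∈ A → ∃ P : MvPolynomial (Fin n) F, P.totalDegree ≤ D ∧
    MvPolynomial.eval (charVec F A) P ≠ 0 ∧
    ∀ B : Finset (Fin n), v ∈ B → B.card = A.card → μ v B ≠ μ v A →
      MvPolynomial.eval (charVec F B) P = 0

end Pool.Agent.Lib.MP_5350f3_lc
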