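import Mathlib

/-!
The polynomial method for diagonal tensors of low degree.
-/

namespace Pool.Agent.Lib.MP_5350f3_lc

open Finset

variable {F : Type} [Field F] {α : Type} [DecidableEq α] {s : ℕ}

/-- A multilinear monomial. -/
def mon (F : Type) [Field F] (W : Fin s → Finset α) : (Fin s → Finset α) → F :=
  fun Y => ∏ l, if W l ⊆ Y l then 1 else 0

/-- Functions of degree at most `d` in the variables indexed by `T`. -/
def lowSp (F : Type) [Field F] (s : ℕ) (T : Finset α) (d : ℕ) :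
    Submodule F ((Fin s → Finset α) → F) :=
  Submodule.span F {g | ∃ W : Fin s → Finset α, (∀ l, W l ⊆ T) ∧ ∑ l, (W l).card ≤ d ∧ g = mon F W}

theorem mon_mul (W W' : Fin s → Finset α) : mon F W * mon F W' = mon F fun l => W l ∪ W' l := by
  funext Y
  simp only [mon, Pi.mul_apply, ← prod_mul_distrib, union_subset_iff]
  refine prod_congr rfl fun l _ => ?_
  by_cases h1 : W l ⊆ Y l <;> by_cases h2 : W' l ⊆ Y l <;> simp [h1, h2]

variable {T : Finset α}

theorem lowSp_mono {d d' : ℕ} (h : d ≤ d') : lowSp F s T d ≤ lowSp F s T d' :=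
  Submodule.span_mono fun _ ⟨W, h1, h2, h3⟩ => ⟨W, h1, h2.trans h, h3⟩

theorem lowSp_mul {d d' : ℕ} {g g' : (Fin s → Finset α) → F} (h : g ∈ lowSp F s T d)
    (h' : g' ∈ lowSp F s T d') : g * g' ∈ lowSp F s T (d + d') := by
  have := Submodule.mul_mem_mul h h'
  rw [lowSp, lowSp, Submodule.span_mul_span] at this
  refine Submodule.span_mono ?_ this
  rintro _ ⟨_, ⟨W, h1, h2, rfl⟩, _, ⟨W', h1', h2', rfl⟩, rfl⟩
  refine ⟨fun l => W l ∪ W' l, fun l => union_subset (h1 l) (h1' l), ?_, mon_mul W W'⟩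
  calc ∑ l, (W l ∪ W' l).card ≤ ∑ l, ((W l).card + (W' l).card) :=
        sum_le_sum fun l _ => card_union_le _ _
    _ ≤ d + d' := by rw [sum_add_distrib]; omega

theorem lowSp_one : (1 : (Fin s → Finset α) → F) ∈ lowSp F s T 0 :=
  Submodule.subset_span ⟨fun _ => ∅, fun _ => empty_subset _, by simp, by
    funext Y; simp [mon]⟩

theorem lowSp_const (c : F) (d : ℕ) : (fun _ => c) ∈ lowSp F s T d := by
  have : (fun _ => c : (Fin s → Finset α) → F) = c • 1 := by funext Y; simp
  rw [this]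
  exact Submodule.smul_mem _ _ (lowSp_mono (Nat.zero_le _) lowSp_one)

theorem lowSp_var (l : Fin s) {j : α} (hj : j ∈ T) :
    (fun Y => if j ∈ Y l then 1 else 0) ∈ lowSp F s T 1 := by
  refine Submodule.subset_span ⟨fun l' => if l' = l then {j} else ∅, fun l' => ?_, ?_, ?_⟩
  · by_cases h : l' = l <;> simp [h, hj]
  · rw [sum_eq_single l (fun l' _ h => by simp [h]) (by simp)]
    simp
  · funext Y
    rw [mon, prod_eq_single l (fun l' _ h => by simp [h]) (by simp)]
    simp

theorem lowSp_prod {ι : Type} (t : Finset ι) {g : ι → (Fin s → Finset α) → F} {d : ι → ℕ}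
    (h : ∀ i ∈ t, g i ∈ lowSp F s T (d i)) : ∏ i ∈ t, g i ∈ lowSp F s T (∑ i ∈ t, d i) := by
  classical
  induction t using Finset.induction_on with
  | empty => simpa using lowSp_one
  | insert a t ha ih =>
    rw [prod_insert ha, sum_insert ha]
    exact lowSp_mul (h a (mem_insert_self _ _)) (ih fun i hi => h i (mem_insert_of_mem hi))

theorem lowSp_pow {g : (Fin s → Finset α) → F} (h : g ∈ lowSp F s T 1) (k : ℕ) :
    g ^ k ∈ lowSp F s T k := by
  induction k with
  | zero => simpa using lowSp_one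
  | succ k ih => rw [pow_succ]; exact lowSp_mul ih h

theorem lowSp_eval {σ : Type} {P : MvPolynomial σ F} {D : ℕ} (hP : P.totalDegree ≤ D)
    {x : σ → (Fin s → Finset α) → F} (hx : ∀ w, x w ∈ lowSp F s T 1) :
    (fun Y => MvPolynomial.eval (fun w => x w Y) P) ∈ lowSp F s T D := by
  have : (fun Y => MvPolynomial.eval (fun w => x w Y) P) =
      ∑ m ∈ P.support, P.coeff m • ∏ w ∈ m.support, x w ^ m w := by
    funext Y
    simp [MvPolynomial.eval_eq, Finset.sum_apply, Finset.prod_apply]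
  rw [this]
  refine Submodule.sum_mem _ fun m hm => Submodule.smul_mem _ _ ?_
  exact lowSp_mono ((MvPolynomial.le_totalDegree hm).trans hP)
    (lowSp_prod m.support fun w _ => lowSp_pow (hx w) (m w))

theorem lowSp_contract {A : Finset (Finset α)} {h : Finset α → F} {m d : ℕ}
    (hh : ∀ W ⊆ T, W.card ≤ m → ∑ Y ∈ A, h Y * (if W ⊆ Y then 1 else 0) = 0)
    (hd : d < s * (m + 1)) {g : (Fin s → Finset α) → F} (hg : g ∈ lowSp F s T d) :
    ∑ Y ∈ Fintype.piFinset fun _ : Fin s => A, (∏ l, h (Y l)) * g Y = 0 := by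
  induction hg using Submodule.span_induction with
  | mem g hg =>
    obtain ⟨W, h1, h2, rfl⟩ := hg
    obtain ⟨l, hl⟩ : ∃ l, (W l).card ≤ m := by
      by_contra hn
      push Not at hn
      have : ∑ _l : Fin s, (m + 1) ≤ ∑ l, (W l).card := sum_le_sum fun l _ => hn l
      simp only [sum_const, card_univ, Fintype.card_fin, smul_eq_mul] at this
      omega
    simp only [mon, ← prod_mul_distrib]
    rw [← prod_univ_sum (fun _ : Fin s => A) fun l Y => h Y * if W l ⊆ Y then 1 else 0]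
    exact prod_eq_zero (mem_univ l) (hh _ (h1 l) hl)
  | zero => simp
  | add g g' _ _ h1 h2 => simp only [Pi.add_apply, mul_add, sum_add_distrib, h1, h2, add_zero]
  | smul c g _ h1 =>
    simp only [Pi.smul_apply, smul_eq_mul, mul_left_comm _ c, ← mul_sum, h1, mul_zero]

theorem diag_bound {A : Finset (Finset α)} {m d : ℕ} (hd : d < s * (m + 1))
    (τ : Finset α → (Fin s → Finset α) → F) (h1 : ∀ Y₀ ∈ A, τ Y₀ ∈ lowSp F s T d)
    (h2 : ∀ Y₀ ∈ A, τ Y₀ (fun _ => Y₀) ≠ 0)
    (h3 : ∀ Y₀ ∈ A, ∀ Y, (∀ l, Y l ∈ A) → τ Y₀ Y ≠ 0 → Y = fun _ => Y₀) :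
    A.card ≤ (T.powerset.filter fun W => W.card ≤ m).card := by
  set M := T.powerset.filter fun W => W.card ≤ m with hM
  let Φ : (A → F) →ₗ[F] (M → F) :=
    { toFun := fun h W => ∑ Y : A, h Y * if W.1 ⊆ Y.1 then 1 else 0
      map_add' := fun h h' => by funext W; simp only [Pi.add_apply, add_mul, sum_add_distrib]
      map_smul' := fun c h => by
        funext W; simp only [Pi.smul_apply, smul_eq_mul, mul_assoc, mul_sum, RingHom.id_apply] }
  have hΦ : Function.Injective Φ := by
    rw [injective_iff_map_eq_zero]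
    intro h hh
    let h' : Finset α → F := fun Y => if hY : Y ∈ A then h ⟨Y, hY⟩ else 0
    have hh' : ∀ W ⊆ T, W.card ≤ m → ∑ Y ∈ A, h' Y * (if W ⊆ Y then 1 else 0) = 0 := by
      intro W hW hWm
      have := congrFun hh ⟨W, mem_filter.2 ⟨mem_powerset.2 hW, hWm⟩⟩
      rw [← sum_coe_sort]
      simpa [Φ, h'] using this
    funext Y₀
    have h4 := lowSp_contract hh' hd (h1 Y₀ Y₀.2)
    rw [sum_eq_single (fun _ => Y₀.1) (fun Y hY hne => ?_) (fun hn => ?_)] at h4
    · rcases mul_eq_zero.1 h4 with h5 | h5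
      · obtain ⟨l, -, hl⟩ := prod_eq_zero_iff.1 h5
        simpa [h'] using hl
      · exact absurd h5 (h2 _ Y₀.2)
    · have : τ Y₀ Y = 0 := by
        by_contra h5
        exact hne (h3 _ Y₀.2 Y (Fintype.mem_piFinset.1 hY) h5)
      rw [this, mul_zero]
    · exact absurd (Fintype.mem_piFinset.2 fun _ => Y₀.2) hn
  simpa using LinearMap.finrank_le_finrank_of_injective hΦ

omit [DecidableEq α] in
theorem small_count (T : Finset α) (m : ℕ) :
    (T.powerset.filter fun W => W.card ≤ m).card * 3 ^ (T.card - m) ≤ 4 ^ T.card := by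
  have h := sum_pow_mul_eq_add_pow (1 : ℕ) 3 T
  simp only [one_pow, one_mul] at h
  rw [show (4 : ℕ) = 1 + 3 from rfl, ← h, ← smul_eq_mul, ← sum_const]
  refine (sum_le_sum fun W hW => ?_).trans (sum_le_sum_of_subset (filter_subset _ _))
  exact Nat.pow_le_pow_right (by norm_num) (by have := (mem_filter.1 hW).2; omega)

end Pool.Agent.Lib.MP_5350f3_lc
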