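import Pool.Agent.Lib.MP_5350f3_lc.Main
import Pool.Agent.Lib.MP_5350f3_lc.DegDefs
import Pool.Agent.Lib.MP_5350f3_lc.DegPoly

/-!
In a correct protocol few vertices have low degree, whatever the other vertices send.
-/

namespace Pool.Agent.Lib.MP_5350f3_lc

open Finset
open scoped symmDiff

theorem card_symmDiff_eq {α : Type} [DecidableEq α] {X Z : Finset α}
    (h : (Z ∩ X).card = (Z \ X).card) : (X ∆ Z).card = X.card := by
  have h1 : X ∆ Z = (X \ Z) ∪ (Z \ X) := rfl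
  rw [h1, card_union_of_disjoint disjoint_sdiff_sdiff, ← h, inter_comm, card_sdiff_add_card_inter]

theorem numeric {D f M : ℕ} (hD : 1 ≤ D)
    (h : M * 3 ^ (16 * (3 * D * (f + 1)) - 4 * (3 * D * (f + 1))) ≤ 4 ^ (16 * (3 * D * (f + 1)))) :
    (2 ^ (f + 1)) ^ (4 * D * 2) * M < 2 ^ (16 * (3 * D * (f + 1))) := by
  set w := 3 * D * (f + 1) with hw
  have hw1 : w ≠ 0 := by positivity
  have h1 : (2 ^ (f + 1)) ^ (4 * D * 2) ≤ 8 ^ w := by
    rw [show (8 : ℕ) = 2 ^ 3 from rfl, ← pow_mul, ← pow_mul]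
    exact Nat.pow_le_pow_right (by norm_num) (by nlinarith)
  rw [show 16 * w - 4 * w = 12 * w by omega] at h
  have h2 : 8 ^ w * 4 ^ (16 * w) < 2 ^ (16 * w) * 3 ^ (12 * w) := by
    rw [pow_mul 4, pow_mul 2, pow_mul 3, ← mul_pow, ← mul_pow]
    exact Nat.pow_lt_pow_left (by norm_num) hw1
  refine Nat.lt_of_mul_lt_mul_right (a := 3 ^ (12 * w)) ?_
  calc (2 ^ (f + 1)) ^ (4 * D * 2) * M * 3 ^ (12 * w)
      = (2 ^ (f + 1)) ^ (4 * D * 2) * (M * 3 ^ (12 * w)) := by ring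
    _ ≤ 8 ^ w * 4 ^ (16 * w) := Nat.mul_le_mul h1 h
    _ < _ := h2

theorem lowDegree_bound {n f D : ℕ} {F : Type} [Field F]
    {μ : Fin n → Finset (Fin n) → List Bool} {R : (Fin n → List Bool) → Bool} (h : Solves μ R)
    (hf : ∀ i x, (μ i x).length ≤ f) (hD : 1 ≤ D) (T₀ : Finset (Fin n))
    (hT₀ : ∀ v ∈ T₀, LowDegree F D μ v) : T₀.card < 58 * D * (f + 1) := by
  classical
  by_contra hn
  push Not at hn
  obtain ⟨code, hcode⟩ := exists_code f
  obtain ⟨T, hTT, hT⟩ := exists_subset_card_eq (s := T₀) (n := 16 * (3 * D * (f + 1)))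
    (by nlinarith)
  have hn' : T₀.card ≤ n := by simpa using card_le_univ T₀
  obtain ⟨e, he⟩ := Function.Embedding.exists_of_card_le_finset
    (α := Option (Fin (4 * D)) × Bool) (s := Tᶜ) (by
      rw [card_compl, hT, Fintype.card_fin]
      simp only [Fintype.card_prod, Fintype.card_option, Fintype.card_fin, Fintype.card_bool]
      apply Nat.le_sub_of_add_le
      nlinarith)
  have heT : ∀ p, e p ∉ T := fun p => mem_compl.1 (mem_coe.1 (he ⟨p, rfl⟩))
  let S : Finset (Fin n) → Finset (Fin n) := fun Y => Y ∪ univ.image fun o => e (o, true)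
  have hSe : ∀ Y ⊆ T, ∀ p, e p ∈ S Y ↔ p.2 = true := fun Y hY p => by
    have h1 : e p ∉ Y := fun h1 => heT p (hY h1)
    simp only [S, mem_union, h1, false_or, mem_image, mem_univ, true_and, e.injective.eq_iff]
    exact ⟨fun ⟨o, ho⟩ => ho ▸ rfl, fun h2 => ⟨p.1, Prod.ext rfl h2.symm⟩⟩
  have hST : ∀ Y, ∀ j ∈ T, j ∈ S Y ↔ j ∈ Y := fun Y j hj => by
    simp only [S, mem_union, mem_image, mem_univ, true_and, or_iff_left_iff_imp]
    rintro ⟨o, rfl⟩
    exact absurd hj (heT _)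
  have hSS : ∀ Y ⊆ T, ∀ Y' ⊆ T, ∀ w, w ∉ T → (w ∈ S Y ↔ w ∈ S Y') := fun Y hY Y' hY' w hw => by
    have h1 : w ∉ Y := fun h1 => hw (hY h1)
    have h2 : w ∉ Y' := fun h1 => hw (hY' h1)
    simp only [S, mem_union, h1, h2]
  let ρ : Finset (Fin n) → (Fin (4 * D) × Bool → (Fin (f + 1) → Bool)) := fun Y p =>
    code (μ (e (some p.1, p.2)) (side (S Y) (e (some p.1, p.2))))
  obtain ⟨c, -, hc⟩ := exists_lt_card_fiber_of_mul_lt_card_of_maps_to (s := T.powerset)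
    (t := univ) (f := ρ) (fun _ _ => mem_univ _)
    (n := (T.powerset.filter fun W => W.card ≤ 4 * (3 * D * (f + 1))).card) (by
      simp only [card_univ, Fintype.card_fun, Fintype.card_prod, Fintype.card_bool,
        Fintype.card_fin, card_powerset, hT]
      exact numeric hD (hT ▸ small_count T _))
  set A := T.powerset.filter fun Y => ρ Y = c with hA
  have hAT : ∀ Y ∈ A, Y ⊆ T := fun Y hY => mem_powerset.1 (mem_filter.1 hY).1
  have hP : ∀ j Y₀, ∃ P : MvPolynomial (Fin n) F, j ∈ T → P.totalDegree ≤ D ∧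
      MvPolynomial.eval (charVec F (side (S Y₀) j)) P ≠ 0 ∧
      ∀ B : Finset (Fin n), j ∈ B → B.card = (side (S Y₀) j).card →
        μ j B ≠ μ j (side (S Y₀) j) → MvPolynomial.eval (charVec F B) P = 0 := fun j Y₀ => by
    by_cases hj : j ∈ T
    · obtain ⟨P, hP⟩ := hT₀ j (hTT hj) (side (S Y₀) j) (mem_side.2 Iff.rfl)
      exact ⟨P, fun _ => hP⟩
    · exact ⟨0, fun h1 => absurd h1 hj⟩
  choose P hP using hP
  let E : Finset (Fin n) → (Fin (4 * D) → Finset (Fin n)) → Fin n → Finset (Fin n) :=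
    fun Y₀ Y a => univ.filter fun b => (∃ l c, a = e (some l, c) ∧ b ∈ Y₀ ∆ Y l) ∨
      ∃ l c, b = e (some l, c) ∧ a ∈ Y₀ ∆ Y l
  have hE : ∀ Y₀ Y a b, b ∈ E Y₀ Y a ↔ (∃ l c, a = e (some l, c) ∧ b ∈ Y₀ ∆ Y l) ∨
      ∃ l c, b = e (some l, c) ∧ a ∈ Y₀ ∆ Y l := fun Y₀ Y a b => by
    simp only [E, mem_filter, mem_univ, true_and]
  have hEc : ∀ Y₀ Y, ∀ j ∈ T, ∀ b, b ∈ E Y₀ Y j ↔ ∃ l c, b = e (some l, c) ∧ j ∈ Y₀ ∆ Y l :=
    fun Y₀ Y j hj b => by
      rw [hE, or_iff_right]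
      rintro ⟨l, c, rfl, -⟩
      exact heT _ hj
  have hEc' : ∀ Y₀ Y, ∀ j ∈ T, ∀ l c, e (some l, c) ∈ E Y₀ Y j ↔ j ∈ Y₀ ∆ Y l :=
    fun Y₀ Y j hj l c => by
      rw [hEc Y₀ Y j hj]
      refine ⟨?_, fun h1 => ⟨l, c, rfl, h1⟩⟩
      rintro ⟨l', c', h1, h2⟩
      obtain ⟨h3, -⟩ := Prod.mk.inj (e.injective h1)
      rwa [Option.some.inj h3]
  refine absurd (diag_bound (F := F) (T := T) (s := 4 * D) (d := T.card * D) (by
      rw [hT]; nlinarith)
    (fun Y₀ => ∏ j ∈ T, fun Y =>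
      MvPolynomial.eval (charVec F (side (S Y₀) j ∆ E Y₀ Y j)) (P j Y₀))
    (fun Y₀ hY₀ => ?_) (fun Y₀ hY₀ => ?_) fun Y₀ hY₀ Y hY hτ => ?_) (not_le.2 hc)
  · have h1 := lowSp_prod (F := F) (s := 4 * D) (T := T) T (d := fun _ => D) (g := fun j Y =>
      MvPolynomial.eval (charVec F (side (S Y₀) j ∆ E Y₀ Y j)) (P j Y₀)) fun j hj =>
        lowSp_eval (x := fun w Y => charVec F (side (S Y₀) j ∆ E Y₀ Y j) w) (hP j Y₀ hj).1
          fun w => ?_
    · simpa using h1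
    by_cases hw : ∃ l c, w = e (some l, c)
    · obtain ⟨l, c, rfl⟩ := hw
      have h2 := lowSp_var (F := F) (s := 4 * D) l hj
      cases c
      · convert Submodule.sub_mem _ (lowSp_const 1 1) h2 using 1
        funext Y
        simp only [charVec, mem_symmDiff, mem_side, hEc' Y₀ Y j hj, hST Y₀ j hj,
          hSe Y₀ (hAT _ hY₀), Pi.sub_apply]
        by_cases h3 : j ∈ Y₀ <;> by_cases h4 : j ∈ Y l <;> simp [h3, h4]
      · convert h2 using 1
        funext Y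
        simp only [charVec, mem_symmDiff, mem_side, hEc' Y₀ Y j hj, hST Y₀ j hj,
          hSe Y₀ (hAT _ hY₀)]
        by_cases h3 : j ∈ Y₀ <;> by_cases h4 : j ∈ Y l <;> simp [h3, h4]
    · convert lowSp_const (F := F) (s := 4 * D) (T := T) (charVec F (side (S Y₀) j) w) 1 using 1
      funext Y
      have h2 : w ∉ E Y₀ Y j := fun h2 => by
        obtain ⟨l, c, h3, -⟩ := (hEc Y₀ Y j hj w).1 h2
        exact hw ⟨l, c, h3⟩
      simp [charVec, mem_symmDiff, h2]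
  · rw [Finset.prod_apply]
    refine prod_ne_zero_iff.2 fun j hj => ?_
    have h1 : E Y₀ (fun _ => Y₀) j = ∅ := eq_empty_of_forall_notMem fun b hb => by
      simpa using (hE _ _ _ _).1 hb
    rw [h1, ← bot_eq_empty, symmDiff_bot]
    exact (hP j Y₀ hj).2.1
  · by_contra hne
    obtain ⟨l₀, hl₀⟩ := Function.ne_iff.1 hne
    obtain ⟨b, hb⟩ : (Y₀ ∆ Y l₀).Nonempty := nonempty_iff_ne_empty.2 fun h1 =>
      hl₀ (symmDiff_eq_bot.1 h1).symm
    have hΔ : ∀ l, ∀ j ∈ Y₀ ∆ Y l, j ∈ T := fun l j hj => by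
      rcases mem_symmDiff.1 hj with h1 | h1
      exacts [hAT _ hY₀ h1.1, hAT _ (hY l) h1.1]
    have hEE : ∀ a, a ∉ E Y₀ Y a := fun a h1 => by
      rcases (hE _ _ _ _).1 h1 with ⟨l, c, h2, h3⟩ | ⟨l, c, h2, h3⟩ <;>
        exact heT _ (h2 ▸ hΔ l a h3)
    have hout : ∀ r, r ∉ T → (¬∃ l c, r = e (some l, c)) → E Y₀ Y r = ∅ := fun r h1 h2 =>
      eq_empty_of_forall_notMem fun b hb => by
        rcases (hE _ _ _ _).1 hb with ⟨l, c, h3, -⟩ | ⟨l, c, -, h3⟩
        exacts [h2 ⟨l, c, h3⟩, h1 (hΔ l r h3)]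
    have hanc : ∀ c, E Y₀ Y (e (none, c)) = ∅ := fun c => hout _ (heT _) fun ⟨l, c', h1⟩ => by
      simpa using e.injective h1
    refine not_fooled h (S Y₀) (E Y₀ Y) (fun a b => by rw [hE, hE, or_comm]) hEE
      ((hSe Y₀ (hAT _ hY₀) (none, true)).2 rfl) (t := e (none, false))
      (by simp [hSe Y₀ (hAT _ hY₀)]) (hanc _) (hanc _)
      ((hE _ _ _ _).2 (Or.inl ⟨l₀, true, rfl, hb⟩)) fun v => ?_
    by_cases hvT : v ∈ T
    · by_contra h1
      rw [Finset.prod_apply] at hτ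
      refine prod_ne_zero_iff.1 hτ v hvT ((hP v Y₀ hvT).2.2 _
        (mem_symmDiff.2 (Or.inl ⟨mem_side.2 Iff.rfl, hEE v⟩)) (card_symmDiff_eq ?_) (Ne.symm h1))
      have hinj : ∀ c, Function.Injective fun l : Fin (4 * D) => e (some l, c) :=
        fun c l l' h2 => by simpa using e.injective h2
      have h2 : E Y₀ Y v ∩ side (S Y₀) v = (univ.filter fun l => v ∈ Y₀ ∆ Y l).image
          fun l => e (some l, decide (v ∈ Y₀)) := by
        ext w
        simp only [mem_inter, hEc Y₀ Y v hvT, mem_side, hST Y₀ v hvT, mem_image, mem_filter,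
          mem_univ, true_and]
        constructor
        · rintro ⟨⟨l, c, rfl, h3⟩, h4⟩
          rw [hSe Y₀ (hAT _ hY₀)] at h4
          exact ⟨l, h3, by rw [show decide (v ∈ Y₀) = c by cases c <;> simpa using h4]⟩
        · rintro ⟨l, h3, rfl⟩
          exact ⟨⟨l, _, rfl, h3⟩, by rw [hSe Y₀ (hAT _ hY₀)]; simp⟩
      have h3 : E Y₀ Y v \ side (S Y₀) v = (univ.filter fun l => v ∈ Y₀ ∆ Y l).image
          fun l => e (some l, !decide (v ∈ Y₀)) := by
        ext w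
        simp only [mem_sdiff, hEc Y₀ Y v hvT, mem_side, hST Y₀ v hvT, mem_image, mem_filter,
          mem_univ, true_and]
        constructor
        · rintro ⟨⟨l, c, rfl, h3⟩, h4⟩
          rw [hSe Y₀ (hAT _ hY₀)] at h4
          exact ⟨l, h3, by rw [show (!decide (v ∈ Y₀)) = c by cases c <;> simpa using h4]⟩
        · rintro ⟨l, h3, rfl⟩
          exact ⟨⟨l, _, rfl, h3⟩, by rw [hSe Y₀ (hAT _ hY₀)]; simp⟩
      rw [h2, h3, card_image_of_injective _ (hinj _), card_image_of_injective _ (hinj _)]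
    by_cases hv : ∃ l c, v = e (some l, c)
    · obtain ⟨l, c', rfl⟩ := hv
      have h1 : side (S Y₀) (e (some l, c')) ∆ E Y₀ Y (e (some l, c')) =
          side (S (Y l)) (e (some l, c')) := by
        ext w
        have h2 : w ∈ E Y₀ Y (e (some l, c')) ↔ w ∈ Y₀ ∆ Y l := by
          rw [hE]
          refine ⟨?_, fun h2 => Or.inl ⟨l, c', rfl, h2⟩⟩
          rintro (⟨l', c'', h2, h3⟩ | ⟨l', c'', -, h3⟩)
          · obtain ⟨h4, -⟩ := Prod.mk.inj (e.injective h2)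
            rwa [Option.some.inj h4]
          · exact absurd (hΔ l' _ h3) hvT
        rw [mem_symmDiff, h2, mem_side, mem_side, hSe Y₀ (hAT _ hY₀), hSe _ (hAT _ (hY l))]
        by_cases hw : w ∈ T
        · rw [hST Y₀ w hw, hST _ w hw, mem_symmDiff]
          tauto
        · have h3 : w ∉ Y₀ ∆ Y l := fun h3 => hw (hΔ l w h3)
          rw [hSS Y₀ (hAT _ hY₀) (Y l) (hAT _ (hY l)) w hw]
          tauto
      rw [h1]
      exact hcode _ _ (hf _ _) (hf _ _)
        (congrFun ((mem_filter.1 hY₀).2.trans (mem_filter.1 (hY l)).2.symm) (l, c'))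
    · rw [hout v hvT hv, ← bot_eq_empty, symmDiff_bot]

end Pool.Agent.Lib.MP_5350f3_lc
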