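import Pool.Agent.Lib.MP_5350f3_lc.Defs

/-!
Mergeable protocols need messages of length about `√n / 2`.
-/

namespace Pool.Agent.Lib.MP_5350f3_lc

open Finset
open scoped symmDiff

theorem exists_code (f : ℕ) : ∃ code : List Bool → (Fin (f + 1) → Bool),
    ∀ l l' : List Bool, l.length ≤ f → l'.length ≤ f → code l = code l' → l = l' := by
  refine ⟨fun l k => (l ++ [true]).getD k false, fun l l' hl hl' h => ?_⟩
  have key : ∀ k, k ≤ f → (l ++ [true]).getD k false = (l' ++ [true]).getD k false :=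
    fun k hk => congrFun h ⟨k, by omega⟩
  have hlen : l.length = l'.length := by
    rcases lt_trichotomy l.length l'.length with h1 | h1 | h1
    · have := key l'.length hl'
      rw [List.getD_eq_default _ _ (by simp; omega)] at this
      simp at this
    · exact h1
    · have := key l.length hl
      rw [List.getD_eq_default (l' ++ [true]) _ (by simp; omega)] at this
      simp at this
  refine List.ext_getElem hlen fun k h1 h2 => ?_
  have := key k (by omega)
  rwa [List.getD_append _ _ _ _ h1, List.getD_append _ _ _ _ h2, List.getD_eq_getElem _ _ h1,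
    List.getD_eq_getElem _ _ h2] at this

variable {n : ℕ}

/-- The side of a vertex in the partition `S`, `Sᶜ`. -/
def side (S : Finset (Fin n)) (v : Fin n) : Finset (Fin n) := if v ∈ S then S else Sᶜ

theorem mem_side {S : Finset (Fin n)} {v w : Fin n} : w ∈ side S v ↔ (v ∈ S ↔ w ∈ S) := by
  unfold side
  split_ifs with h <;> simp [h]

/-- Two cliques with the pairs in `D` flipped. -/
def flipGraph (S : Finset (Fin n)) (D : Fin n → Finset (Fin n))
    (hD : ∀ a b, b ∈ D a ↔ a ∈ D b) : SimpleGraph (Fin n) where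
  Adj a b := a ≠ b ∧ b ∈ side S a ∆ D a
  symm := ⟨fun a b h => ⟨h.1.symm, by
    have := h.2
    simp only [mem_symmDiff, mem_side, hD a b] at this ⊢
    tauto⟩⟩
  loopless := ⟨fun _ h => h.1 rfl⟩

theorem closedNbhd_flipGraph (S : Finset (Fin n)) (D : Fin n → Finset (Fin n))
    (hD : ∀ a b, b ∈ D a ↔ a ∈ D b) (hD' : ∀ a, a ∉ D a) (a : Fin n) :
    closedNbhd (flipGraph S D hD) a = side S a ∆ D a := by
  ext b
  simp only [closedNbhd, flipGraph, mem_filter, mem_univ, true_and]
  by_cases h : b = a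
  · subst h
    simp [mem_symmDiff, mem_side, hD']
  · simp [h, Ne.symm h]

theorem Mergeable.window {μ : Fin n → Finset (Fin n) → List Bool} (h : Mergeable μ) {v : Fin n}
    {A B W : Finset (Fin n)} (hA : v ∈ A) (hB : v ∈ B) (hAB : ∀ x, x ∉ W → (x ∈ A ↔ x ∈ B))
    (he : μ v (insert v (A ∩ W)) = μ v (insert v (B ∩ W))) : μ v A = μ v B := by
  have h1 := h v _ _ (A \ insert v W) (mem_insert_self _ _) (mem_insert_self _ _)
    (disjoint_left.2 fun x hx hx' => by
      simp only [mem_insert, mem_inter, mem_sdiff] at hx hx'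
      tauto)
    (disjoint_left.2 fun x hx hx' => by
      simp only [mem_insert, mem_inter, mem_sdiff] at hx hx'
      tauto) he
  have e1 : insert v (A ∩ W) ∪ A \ insert v W = A := by
    ext x
    simp only [mem_union, mem_insert, mem_inter, mem_sdiff]
    by_cases hx : x = v
    · simp [hx, hA]
    · tauto
  have e2 : insert v (B ∩ W) ∪ A \ insert v W = B := by
    ext x
    simp only [mem_union, mem_insert, mem_inter, mem_sdiff]
    have := hAB x
    by_cases hx : x = v
    · simp [hx, hB]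
    · tauto
  rwa [e1, e2] at h1

/-- A correct protocol cannot give the same messages on two cliques and on a flipped copy. -/
theorem not_fooled {μ : Fin n → Finset (Fin n) → List Bool} {R : (Fin n → List Bool) → Bool}
    (h : Solves μ R) (S : Finset (Fin n)) (D : Fin n → Finset (Fin n))
    (hD : ∀ a b, b ∈ D a ↔ a ∈ D b) (hD' : ∀ a, a ∉ D a) {s t : Fin n} (hs : s ∈ S) (ht : t ∉ S)
    (hsD : D s = ∅) (htD : D t = ∅) {a b : Fin n} (hab : b ∈ D a)
    (he : ∀ v, μ v (side S v) = μ v (side S v ∆ D v)) : False := by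
  have h0 : ∀ a b : Fin n, b ∈ (fun _ => ∅ : Fin n → Finset (Fin n)) a ↔
      a ∈ (fun _ => ∅ : Fin n → Finset (Fin n)) b := by simp
  have h1 := h (flipGraph S D hD)
  have h2 := h (flipGraph S (fun _ => ∅) h0)
  simp only [closedNbhd_flipGraph S D hD hD', ← he] at h1
  have hcl : ∀ i, closedNbhd (flipGraph S (fun _ => ∅) h0) i = side S i := fun i => by
    rw [closedNbhd_flipGraph S _ h0 (by simp), ← bot_eq_empty, symmDiff_bot]
  simp only [hcl] at h2
  have hno : ∀ r, D r = ∅ → ∀ x, r ∉ D x ∧ x ∉ D r := fun r hr x => by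
    rw [hD x r, hr]; simp
  have hne : a ≠ b := fun e => hD' a (by rwa [← e] at hab)
  have hba := (hD a b).1 hab
  have hr : ∀ v, ∃ r, D r = ∅ ∧ (v ∈ S ↔ r ∈ S) := fun v => by
    by_cases hv : v ∈ S
    · exact ⟨s, hsD, by simp [hv, hs]⟩
    · exact ⟨t, htD, by simp [hv, ht]⟩
  obtain ⟨r, hrD, hra⟩ := hr a
  have har : a ≠ r := fun e => by rw [e, hrD] at hab; simp at hab
  have hbr : b ≠ r := fun e => by rw [e, hrD] at hba; simp at hba
  have h3 : HasInducedP3 (flipGraph S D hD) := by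
    have h4 := hno r hrD a
    have h5 := hno r hrD b
    by_cases hS : a ∈ S ↔ b ∈ S
    · refine ⟨a, r, b, ⟨har, ?_⟩, ⟨hbr.symm, ?_⟩, hne, fun h6 => ?_⟩
      · simp only [mem_symmDiff, mem_side]; tauto
      · simp only [mem_symmDiff, mem_side]; tauto
      · have := h6.2
        simp only [mem_symmDiff, mem_side] at this; tauto
    · refine ⟨r, a, b, ⟨har.symm, ?_⟩, ⟨hne, ?_⟩, hbr.symm, fun h6 => ?_⟩
      · simp only [mem_symmDiff, mem_side]; tauto
      · simp only [mem_symmDiff, mem_side]; tauto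
      · have := h6.2
        simp only [mem_symmDiff, mem_side] at this; tauto
  obtain ⟨x, y, z, hxy, hyz, hxz, hn⟩ := h2.1 (h1.2 h3)
  refine hn ⟨hxz, ?_⟩
  have h7 := hxy.2
  have h8 := hyz.2
  simp only [mem_symmDiff, mem_side, notMem_empty] at h7 h8 ⊢
  tauto

theorem mergeable_bound {f : ℕ} {μ : Fin n → Finset (Fin n) → List Bool}
    {R : (Fin n → List Bool) → Bool} (h : Solves μ R) (hm : Mergeable μ)
    (hf : ∀ i x, (μ i x).length ≤ f) : n ≤ (2 * f + 3) ^ 2 + 2 := by
  classical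
  by_contra hn
  push Not at hn
  obtain ⟨code, hcode⟩ := exists_code f
  have hc : ∀ v A B, code (μ v A) = code (μ v B) → μ v A = μ v B := fun v A B =>
    hcode _ _ (hf _ _) (hf _ _)
  obtain ⟨I, -, hI⟩ := exists_subset_card_eq (s := (univ : Finset (Fin n))) (n := 2 * f + 3)
    (by simp; nlinarith)
  have hIc : Iᶜ.card = n - (2 * f + 3) := by rw [card_compl, hI, Fintype.card_fin]
  obtain ⟨s, hs, t, ht, hst⟩ := one_lt_card.1 (show 1 < Iᶜ.card by
    rw [hIc]; apply Nat.lt_sub_of_add_lt; nlinarith)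
  set J := (Iᶜ.erase s).erase t with hJ
  have hJc : J.card + 2 = Iᶜ.card := by
    rw [hJ, card_erase_of_mem (mem_erase.2 ⟨hst.symm, ht⟩), card_erase_of_mem hs]
    have := one_lt_card.2 ⟨s, hs, t, ht, hst⟩
    omega
  have hJm : ∀ j ∈ J, j ≠ t ∧ j ≠ s ∧ j ∉ I := fun j hj => by simpa [hJ] using hj
  let κ : Fin n → Finset (Fin n) → (Fin (f + 1) → Bool) × (Fin (f + 1) → Bool) := fun j X =>
    (code (μ j (insert j X)), code (μ j (insert j (I \ X))))
  let iso : Fin n → Finset (Fin n) → Prop := fun j X => ∀ X' ⊆ I, κ j X' = κ j X → X' = X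
  have hiso : ∀ j, 2 * (I.powerset.filter (iso j)).card ≤ I.powerset.card := by
    intro j
    have h1 : (I.powerset.filter (iso j)).card ≤
        (univ : Finset ((Fin (f + 1) → Bool) × (Fin (f + 1) → Bool))).card :=
      card_le_card_of_injOn (κ j) (fun _ _ => mem_coe.2 (mem_univ _)) fun X hX X' hX' e =>
        (mem_filter.1 hX').2 X (mem_powerset.1 (mem_filter.1 hX).1) e
    simp only [card_univ, Fintype.card_prod, Fintype.card_fun, Fintype.card_bool,
      Fintype.card_fin] at h1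
    rw [card_powerset, hI, show 2 ^ (2 * f + 3) = 2 * (2 ^ (f + 1) * 2 ^ (f + 1)) by ring]
    omega
  obtain ⟨X, hX, hXJ⟩ : ∃ X ∈ I.powerset, 2 * (J.filter fun j => iso j X).card ≤ J.card := by
    refine exists_le_of_sum_le ⟨∅, empty_mem_powerset _⟩ ?_
    calc ∑ X ∈ I.powerset, 2 * (J.filter fun j => iso j X).card
        = ∑ j ∈ J, 2 * (I.powerset.filter (iso j)).card := by
          simp only [← mul_sum, card_filter]
          rw [sum_comm]
      _ ≤ ∑ _j ∈ J, I.powerset.card := sum_le_sum fun j _ => hiso j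
      _ = ∑ _X ∈ I.powerset, J.card := by simp [mul_comm]
  have hXI : X ⊆ I := mem_powerset.1 hX
  set J' := J.filter fun j => ¬iso j X with hJ'
  have hJ'c := card_filter_add_card_filter_not (s := J) fun j => iso j X
  have hex : ∀ j, ∃ X', j ∈ J' → X' ⊆ I ∧ κ j X' = κ j X ∧ X' ≠ X := fun j => by
    by_cases hj : j ∈ J'
    · have := (mem_filter.1 hj).2
      simp only [iso, not_forall] at this
      obtain ⟨X', h1, h2, h3⟩ := this
      exact ⟨X', fun _ => ⟨h1, h2, h3⟩⟩
    · exact ⟨∅, fun h => absurd h hj⟩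
  choose Z hZ using hex
  let T : Fin n → Finset (Fin n) := fun i => J'.filter fun j => i ∈ X ∆ Z j
  let ρ : Finset (Fin n) → (I → (Fin (f + 1) → Bool)) := fun Y i =>
    code (μ i (insert i.1 ((if i.1 ∈ X then Y else Yᶜ) ∩ T i)))
  obtain ⟨Y, hY, Y', hY', hYY, hρ⟩ := exists_ne_map_eq_of_card_lt_of_maps_to
    (s := J'.powerset) (t := univ) (f := ρ) (by
      simp only [card_univ, Fintype.card_fun, Fintype.card_bool, Fintype.card_fin,
        Fintype.card_coe, hI, card_powerset, ← pow_mul]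
      refine Nat.pow_lt_pow_right (by norm_num) ?_
      have h1 : n - (2 * f + 3) + (2 * f + 3) = n := Nat.sub_add_cancel (by nlinarith)
      nlinarith) (fun _ _ => mem_coe.2 (mem_univ _))
  have hYJ : Y ⊆ J' := mem_powerset.1 hY
  have hYJ' : Y' ⊆ J' := mem_powerset.1 hY'
  have hF : ∀ j ∈ Y ∆ Y', j ∈ J' := fun j hj => by
    rcases mem_symmDiff.1 hj with h1 | h1
    exacts [hYJ h1.1, hYJ' h1.1]
  have hJ'm : ∀ j ∈ J', j ≠ t ∧ j ≠ s ∧ j ∉ I := fun j hj => hJm j (mem_filter.1 hj).1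
  have hZI : ∀ j ∈ J', ∀ i ∈ X ∆ Z j, i ∈ I := fun j hj i hi => by
    rcases mem_symmDiff.1 hi with h1 | h1
    exacts [hXI h1.1, (hZ j hj).1 h1.1]
  let D : Fin n → Finset (Fin n) := fun a => univ.filter fun b =>
    (b ∈ Y ∆ Y' ∧ a ∈ X ∆ Z b) ∨ (a ∈ Y ∆ Y' ∧ b ∈ X ∆ Z a)
  have hDm : ∀ a b, b ∈ D a ↔ (b ∈ Y ∆ Y' ∧ a ∈ X ∆ Z b) ∨ (a ∈ Y ∆ Y' ∧ b ∈ X ∆ Z a) :=
    fun a b => by simp only [D, mem_filter, mem_univ, true_and]
  have hout : ∀ r, r ∉ I → r ∉ Y ∆ Y' → D r = ∅ := fun r h1 h2 =>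
    eq_empty_of_forall_notMem fun b hb => by
      rcases (hDm r b).1 hb with h3 | h3
      exacts [h1 (hZI b (hF b h3.1) r h3.2), h2 h3.1]
  obtain ⟨b, hb⟩ : (Y ∆ Y').Nonempty := nonempty_iff_ne_empty.2 fun e => hYY (symmDiff_eq_bot.1 e)
  obtain ⟨a, ha⟩ : (X ∆ Z b).Nonempty := nonempty_iff_ne_empty.2 fun e =>
    (hZ b (hF b hb)).2.2 (symmDiff_eq_bot.1 e).symm
  have hsI : s ∉ I := mem_compl.1 hs
  have htI : t ∉ I := mem_compl.1 ht
  have hDD : ∀ a, a ∉ D a := fun a h1 => by
    rcases (hDm a a).1 h1 with h3 | h3 <;>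
      exact (hJ'm a (hF a h3.1)).2.2 (hZI a (hF a h3.1) a h3.2)
  have hSI : ∀ i ∈ I, i ∈ insert s (X ∪ Y) ↔ i ∈ X := fun i hi => by
    have h1 : i ≠ s := fun e => hsI (e ▸ hi)
    have h2 : i ∉ Y := fun e => (hJ'm i (hYJ e)).2.2 hi
    simp [h1, h2]
  have hSJ : ∀ j ∈ J', j ∈ insert s (X ∪ Y) ↔ j ∈ Y := fun j hj => by
    have h1 := (hJ'm j hj).2.1
    have h2 : j ∉ X := fun e => (hJ'm j hj).2.2 (hXI e)
    simp [h1, h2]
  refine not_fooled h (insert s (X ∪ Y)) D (fun a b => by rw [hDm, hDm, or_comm]) hDD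
    (mem_insert_self _ _) (t := t) (fun h1 => ?_)
    (hout s hsI fun h1 => (hJ'm s (hF s h1)).2.1 rfl)
    (hout t htI fun h1 => (hJ'm t (hF t h1)).1 rfl) ((hDm a b).2 (Or.inl ⟨hb, ha⟩)) fun v => ?_
  · simp only [mem_insert, mem_union] at h1
    rcases h1 with h1 | h1 | h1
    exacts [hst h1.symm, htI (hXI h1), (hJ'm t (hYJ h1)).1 rfl]
  have hv1 : v ∈ side (insert s (X ∪ Y)) v := mem_side.2 Iff.rfl
  have hv2 : v ∈ side (insert s (X ∪ Y)) v ∆ D v := mem_symmDiff.2 (Or.inl ⟨hv1, hDD v⟩)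
  by_cases hvI : v ∈ I
  · have hvF : v ∉ Y ∆ Y' := fun h1 => (hJ'm v (hF v h1)).2.2 hvI
    have hDv : ∀ x, x ∈ D v ↔ x ∈ Y ∆ Y' ∧ x ∈ T v := fun x => by
      simp only [hDm, hvF, false_and, or_false, T, mem_filter]
      exact ⟨fun h1 => ⟨h1.1, hF x h1.1, h1.2⟩, fun h1 => ⟨h1.1, h1.2.2⟩⟩
    refine hm.window (W := T v) hv1 hv2 (fun x hx => ?_) ?_
    · simp [mem_symmDiff, hDv, hx]
    · have h1 := hc _ _ _ (congrFun hρ ⟨v, hvI⟩)
      have e1 : side (insert s (X ∪ Y)) v ∩ T v = (if v ∈ X then Y else Yᶜ) ∩ T v := by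
        ext x
        simp only [mem_inter, mem_side, hSI v hvI, and_congr_left_iff]
        intro hx
        rw [hSJ x (mem_filter.1 hx).1]
        split_ifs with h2 <;> simp [h2]
      have e2 : (side (insert s (X ∪ Y)) v ∆ D v) ∩ T v = (if v ∈ X then Y' else Y'ᶜ) ∩ T v := by
        ext x
        simp only [mem_inter, mem_symmDiff, hDv, mem_side, hSI v hvI, and_congr_left_iff]
        intro hx
        rw [hSJ x (mem_filter.1 hx).1]
        split_ifs with h2 <;> simp [h2, hx] <;> tauto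
      rw [e1, e2]
      exact h1
  by_cases hvF : v ∈ Y ∆ Y'
  · have hvJ := hF v hvF
    have hDv : ∀ x, x ∈ D v ↔ x ∈ X ∆ Z v := fun x => by
      simp only [hDm, hvF, true_and]
      exact ⟨fun h1 => h1.resolve_left fun h2 => hvI (hZI x (hF x h2.1) v h2.2), Or.inr⟩
    obtain ⟨hZ1, hZ2, -⟩ := hZ v hvJ
    refine hm.window (W := I) hv1 hv2 (fun x hx => ?_) ?_
    · have : x ∉ D v := fun h1 => hx (hZI v hvJ x ((hDv x).1 h1))
      simp [mem_symmDiff, this]
    · have e1 : side (insert s (X ∪ Y)) v ∩ I = if v ∈ Y then X else I \ X := by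
        ext x
        have := @hXI x
        simp only [mem_inter, mem_side, hSJ v hvJ]
        by_cases hx : x ∈ I
        · rw [hSI x hx]
          split_ifs with h2 <;> simp [h2, hx]
        · split_ifs with h2
          · simp only [hx, and_false, false_iff]
            exact fun h3 => hx (this h3)
          · simp [hx]
      have e2 : (side (insert s (X ∪ Y)) v ∆ D v) ∩ I = if v ∈ Y then Z v else I \ Z v := by
        ext x
        have := @hZ1 x
        simp only [mem_inter, mem_symmDiff, hDv, mem_side, hSJ v hvJ]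
        by_cases hx : x ∈ I
        · rw [hSI x hx]
          split_ifs with h2 <;> simp [h2, hx] <;> tauto
        · split_ifs with h2
          · simp only [hx, and_false, false_iff]
            exact fun h3 => hx (this h3)
          · simp [hx]
      rw [e1, e2]
      split_ifs
      · exact (hc _ _ _ (congrArg Prod.fst hZ2)).symm
      · exact (hc _ _ _ (congrArg Prod.snd hZ2)).symm
  · rw [hout v hvI hvF, ← bot_eq_empty, symmDiff_bot]

end Pool.Agent.Lib.MP_5350f3_lc
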