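import Pool.Agent.Lib.MP_5350f3_lc.Defs

/-!
The identity behind the protocol for two cliques. Pairs of vertices carry a key and a level; the
pairs of one level are checked with weights that only use pairs of larger level and short pairs.
-/

namespace Pool.Agent.Lib.MP_5350f3_lc.Two

open Finset

variable {V K : Type} [Fintype V] [DecidableEq V] [DecidableEq K]

/-- The weight that the vertex `j` with signs `s` gives to the vertex `i`. -/
def tau (key : V → V → K) (s : V → ℤ) (i j : V) : ℤ :=
  ∑ v ∈ univ.filter (fun v => key i v = key i j ∧ v ≠ j),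
    ∑ u ∈ univ.filter (fun u => key u v = key i j ∧ u ≠ i), s u * s v

omit [DecidableEq V] in
lemma fiber_zero (f : V → K) (e : V → ℤ)
    (h : ∀ κ, ∑ j ∈ univ.filter (fun j => f j = κ), e j = 0) (F : K → ℤ) :
    ∑ j, F (f j) * e j = 0 := by
  rw [← sum_fiberwise_of_maps_to (s := univ) (t := univ.image f) (g := f)
    fun j _ => mem_image_of_mem f (mem_univ j)]
  refine sum_eq_zero fun κ _ => ?_
  rw [sum_congr rfl fun j hj => by rw [(mem_filter.1 hj).2], ← mul_sum, h, mul_zero]

lemma sum_erase_filter (p : V → Prop) [DecidablePred p] (a : V) (ha : p a) (f : V → ℤ) :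
    ∑ v ∈ univ.filter (fun v => p v ∧ v ≠ a), f v = ∑ v ∈ univ.filter p, f v - f a := by
  have h1 : univ.filter (fun v => p v ∧ v ≠ a) = (univ.filter p).erase a := by
    ext v
    simp [and_comm]
  rw [h1, ← add_sum_erase _ f (mem_filter.2 ⟨mem_univ a, ha⟩)]
  ring

lemma tau_eq (key : V → V → K) (x : V → ℤ) (hx : ∀ i, x i * x i = 1) (i j : V) :
    tau key (fun t => x j * x t) i j =
      (∑ v ∈ univ.filter (fun v => key i v = key i j),
        ∑ u ∈ univ.filter (fun u => key u v = key i j ∧ u ≠ i), x u * x v) -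
      (∑ u ∈ univ.filter (fun u => key u j = key i j), x u * x j) + x i * x j := by
  unfold tau
  have h1 : ∀ u v, x j * x u * (x j * x v) = x u * x v := fun u v => by
    linear_combination (x u * x v) * hx j
  simp only [h1]
  rw [sum_erase_filter (fun v => key i v = key i j) j rfl,
    sum_erase_filter (fun u => key u j = key i j) i rfl]
  ring

theorem core (key : V → V → K) (lev : K → ℤ) (short : V → V → Prop)
    (geo : ∀ i j u v, key i v = key i j → key u v = key i j → v ≠ j → u ≠ i →
      lev (key i j) < lev (key u j) ∧ short j v)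
    (x : V → ℤ) (hx : ∀ i, x i * x i = 1) (g : V → V → ℤ) (hg : ∀ i j, g i j * g i j = 1)
    (hs : ∀ i j, g i j = g j i)
    (hR : ∀ i κ, ∑ j ∈ univ.filter (fun j => key i j = κ), g i j =
      ∑ j ∈ univ.filter (fun j => key i j = κ), x i * x j)
    (hC : ∀ j κ, ∑ i ∈ univ.filter (fun i => key i j = κ), g j i =
      ∑ i ∈ univ.filter (fun i => key i j = κ), x j * x i)
    (hS : ∀ j v, short j v → g j v = x j * x v)
    (hT : ∀ j r, ∑ i ∈ univ.filter (fun i => lev (key i j) = r), tau key (g j) i j * g j i =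
      ∑ i ∈ univ.filter (fun i => lev (key i j) = r),
        tau key (fun t => x j * x t) i j * (x j * x i)) :
    ∀ i j, g i j = x i * x j := by
  by_contra hno
  push Not at hno
  obtain ⟨i1, j1, h1⟩ := hno
  obtain ⟨⟨i0, j0⟩, h0, hmax⟩ := exists_max_image
    (univ.filter fun p : V × V => g p.1 p.2 ≠ x p.1 * x p.2) (fun p => lev (key p.1 p.2))
    ⟨(i1, j1), mem_filter.2 ⟨mem_univ _, h1⟩⟩
  have h0' : g i0 j0 ≠ x i0 * x j0 := (mem_filter.1 h0).2
  obtain ⟨r, hr⟩ : ∃ r, r = lev (key i0 j0) := ⟨_, rfl⟩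
  have hhigh : ∀ u j, r < lev (key u j) → g u j = x u * x j := fun u j h => by
    by_contra h2
    have h3 := hmax (u, j) (mem_filter.2 ⟨mem_univ _, h2⟩)
    simp only at h3
    omega
  have htau : ∀ i j, lev (key i j) = r →
      tau key (g j) i j = tau key (fun t => x j * x t) i j := fun i j hij => by
    unfold tau
    refine sum_congr rfl fun v hv => sum_congr rfl fun u hu => ?_
    obtain ⟨h2, h3⟩ := geo i j u v (mem_filter.1 hv).2.1 (mem_filter.1 hu).2.1
      (mem_filter.1 hv).2.2 (mem_filter.1 hu).2.2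
    rw [hS j v h3, hs j u, hhigh u j (hij ▸ h2), mul_comm (x u)]
  obtain ⟨e, he⟩ : ∃ e : V → V → ℤ, ∀ i j, e i j = x i * x j - g i j := ⟨_, fun _ _ => rfl⟩
  obtain ⟨A, hA⟩ : ∃ A : V → K → ℤ, ∀ i κ, A i κ = ∑ v ∈ univ.filter (fun v => key i v = κ),
      ∑ u ∈ univ.filter (fun u => key u v = κ ∧ u ≠ i), x u * x v := ⟨_, fun _ _ => rfl⟩
  obtain ⟨B, hB⟩ : ∃ B : V → K → ℤ, ∀ j κ,
      B j κ = ∑ u ∈ univ.filter (fun u => key u j = κ), x u * x j := ⟨_, fun _ _ => rfl⟩
  have e1 : ∀ i, ∑ j, (if lev (key i j) = r then A i (key i j) else 0) * e i j = 0 := fun i =>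
    fiber_zero (key i) (e i) (fun κ => by simp only [he, sum_sub_distrib, hR i κ, sub_self])
      fun κ => if lev κ = r then A i κ else 0
  have e2 : ∀ j, ∑ i, (if lev (key i j) = r then B j (key i j) else 0) * e i j = 0 := fun j =>
    fiber_zero (fun i => key i j) (fun i => e i j) (fun κ => by
      simp only [he, sum_sub_distrib, hs _ j, hC j κ, mul_comm (x j), sub_self])
      fun κ => if lev κ = r then B j κ else 0
  have e3 : ∀ j, ∑ i, (if lev (key i j) = r then
      A i (key i j) - B j (key i j) + x i * x j else 0) * e i j = 0 := fun j => by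
    have h2 := sub_eq_zero.2 (hT j r).symm
    rw [← sum_sub_distrib, sum_filter] at h2
    refine Eq.trans (sum_congr rfl fun i _ => ?_) h2
    by_cases hij : lev (key i j) = r
    · rw [if_pos hij, if_pos hij, htau i j hij, tau_eq key x hx, he, hA, hB, hs j i]
      ring
    · rw [if_neg hij, if_neg hij, zero_mul]
  have e4 : ∑ j, ∑ i, (if lev (key i j) = r then x i * x j else 0) * e i j = 0 := by
    have h2 : ∑ j, ∑ i, (if lev (key i j) = r then A i (key i j) else 0) * e i j = 0 := by
      rw [sum_comm]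
      exact sum_eq_zero fun i _ => e1 i
    have h3 : ∑ j, ∑ i, (if lev (key i j) = r then B j (key i j) else 0) * e i j = 0 :=
      sum_eq_zero fun j _ => e2 j
    have h4 : ∑ j, ∑ i, (if lev (key i j) = r then
        A i (key i j) - B j (key i j) + x i * x j else 0) * e i j = 0 :=
      sum_eq_zero fun j _ => e3 j
    have h5 := congrArg₂ (· + ·) (congrArg₂ (· - ·) h4 h2) h3
    simp only [← sum_sub_distrib, ← sum_add_distrib, sub_self, add_zero] at h5
    refine Eq.trans (sum_congr rfl fun j _ => sum_congr rfl fun i _ => ?_) h5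
    split_ifs <;> ring
  have hsq : ∀ i j, 2 * (x i * x j * e i j) = e i j ^ 2 := fun i j => by
    rw [he]
    linear_combination (x j * x j) * hx i + hx j - hg i j
  have hnn : ∀ j i, 0 ≤ (if lev (key i j) = r then x i * x j else 0) * e i j := fun j i => by
    split_ifs
    · nlinarith [hsq i j, sq_nonneg (e i j)]
    · simp
  have e5 := (sum_eq_zero_iff_of_nonneg fun i _ => hnn j0 i).1
    ((sum_eq_zero_iff_of_nonneg fun j _ => sum_nonneg fun i _ => hnn j i).1 e4 j0 (mem_univ _))
    i0 (mem_univ _)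
  rw [if_pos hr.symm] at e5
  have e6 : e i0 j0 ^ 2 = 0 := by rw [← hsq, e5, mul_zero]
  have e7 : e i0 j0 = 0 := pow_eq_zero_iff (two_ne_zero) |>.1 e6
  rw [he] at e7
  exact h0' (by omega)

end Pool.Agent.Lib.MP_5350f3_lc.Two
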