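import Pool.Agent.Lib.MP_5350f3_lc.TwoCore

/-!
The keys: vertices are points of a grid, the level of a pair is the squared distance.
-/

namespace Pool.Agent.Lib.MP_5350f3_lc.Two

open Finset

lemma card_kill {k : ℕ} (a c : Fin k → ZMod 2) (l1 l2 : Fin k) (h1 : a l1 = 1) (h2 : c l1 = 0)
    (h3 : a l2 = 0) (h4 : c l2 = 1) :
    (univ.filter fun w : Fin k → ZMod 2 => ∑ l, w l * a l = 0 ∧ ∑ l, w l * c l = 0).card * 4
      ≤ 2 ^ k := by
  obtain ⟨S, hS⟩ : ∃ S, S = univ.filter fun w : Fin k → ZMod 2 =>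
    ∑ l, w l * a l = 0 ∧ ∑ l, w l * c l = 0 := ⟨_, rfl⟩
  rw [← hS]
  let f : (Fin k → ZMod 2) × ZMod 2 × ZMod 2 → Fin k → ZMod 2 :=
    fun p => p.1 + Pi.single l1 p.2.1 + Pi.single l2 p.2.2
  have hsum : ∀ (b : Fin k → ZMod 2) p, ∑ l, f p l * b l =
      ∑ l, p.1 l * b l + p.2.1 * b l1 + p.2.2 * b l2 := fun b p => by
    simp [f, add_mul, sum_add_distrib, Pi.single_apply]
  have hinj : Set.InjOn f (S ×ˢ (univ : Finset (ZMod 2 × ZMod 2)) : Finset _) := by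
    rintro ⟨w, s, t⟩ hp ⟨w', s', t'⟩ hp' he
    have m1 := (mem_product.1 hp).1
    have m2 := (mem_product.1 hp').1
    rw [hS, mem_filter] at m1 m2
    have e1 := hsum a (w, s, t)
    have e2 := hsum c (w, s, t)
    rw [he, hsum] at e1 e2
    simp only [m1.2.1, m1.2.2, m2.2.1, m2.2.2, h1, h2, h3, h4, mul_one, mul_zero, zero_add,
      add_zero] at e1 e2
    subst e1 e2
    simp only [f, add_left_inj] at he
    rw [he]
  have h5 := card_le_card_of_injOn f (fun p _ => mem_coe.2 (mem_univ (f p))) hinj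
  simpa using h5

lemma exists_hash (k m : ℕ) (h : 3 ^ k < 4 ^ m) : ∃ H : Fin m → Fin k → ZMod 2,
    ∀ a c : Fin k → ZMod 2, a ≠ 0 → c ≠ 0 → (∀ t, ∑ l, H t l * a l = 0) →
      (∀ t, ∑ l, H t l * c l = 0) → ∃ l, a l ≠ 0 ∧ c l ≠ 0 := by
  by_contra hno
  push Not at hno
  have h01 : ∀ z : ZMod 2, z ≠ 0 → z = 1 := by decide
  let T : Finset (ZMod 2 × ZMod 2) := {(0, 0), (1, 0), (0, 1)}
  let B : Finset (Fin k → ZMod 2 × ZMod 2) := (Fintype.piFinset fun _ => T).filter fun p =>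
    (∃ l, (p l).1 = 1 ∧ (p l).2 = 0) ∧ ∃ l, (p l).1 = 0 ∧ (p l).2 = 1
  let S : (Fin k → ZMod 2 × ZMod 2) → Finset (Fin k → ZMod 2) := fun p =>
    univ.filter fun w => ∑ l, w l * (p l).1 = 0 ∧ ∑ l, w l * (p l).2 = 0
  have hcov : (univ : Finset (Fin m → Fin k → ZMod 2)) ⊆
      B.biUnion fun p => Fintype.piFinset fun _ => S p := fun H _ => by
    obtain ⟨a, c, ha, hc, h1, h2, h3⟩ := hno H
    refine mem_biUnion.2 ⟨fun l => (a l, c l), mem_filter.2 ⟨Fintype.mem_piFinset.2 fun l => ?_,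
      ?_, ?_⟩, Fintype.mem_piFinset.2 fun t => mem_filter.2 ⟨mem_univ _, h1 t, h2 t⟩⟩
    · have h4 := h3 l
      revert h4
      generalize a l = x
      generalize c l = y
      revert x y
      decide
    · obtain ⟨l, hl⟩ := Function.ne_iff.1 ha
      exact ⟨l, h01 _ hl, h3 l hl⟩
    · obtain ⟨l, hl⟩ := Function.ne_iff.1 hc
      exact ⟨l, by_contra fun h4 => hl (h3 l h4), h01 _ hl⟩
  have hB : B.card ≤ 3 ^ k := by
    refine (card_filter_le _ _).trans (le_of_eq ?_)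
    rw [Fintype.card_piFinset_const]
    rfl
  have h1 := (card_le_card hcov).trans card_biUnion_le
  have h2 : (∑ p ∈ B, (Fintype.piFinset fun _ : Fin m => S p).card) * 4 ^ m
      ≤ B.card * (2 ^ k) ^ m := by
    rw [sum_mul, ← smul_eq_mul]
    refine sum_le_card_nsmul _ _ _ fun p hp => ?_
    obtain ⟨⟨l1, a1, a2⟩, l2, a3, a4⟩ := (mem_filter.1 hp).2
    rw [Fintype.card_piFinset_const, ← mul_pow]
    exact Nat.pow_le_pow_left (card_kill (fun l => (p l).1) (fun l => (p l).2) l1 l2 a1 a2 a3 a4) m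
  have h3 : (univ : Finset (Fin m → Fin k → ZMod 2)).card = (2 ^ k) ^ m := by simp
  rw [h3] at h1
  have h4 : 0 < (2 ^ k) ^ m := by positivity
  nlinarith [Nat.mul_le_mul_right (4 ^ m) h1, Nat.mul_le_mul_right ((2 ^ k) ^ m) hB]

/-- The key of a difference vector: its cell, its colour and its squared length. -/
def dkey {k m : ℕ} (H : Fin m → Fin k → ZMod 2) (d : Fin k → ℤ) :
    (Fin k → ℤ) × (Fin m → ZMod 2) × ℤ :=
  (fun l => d l / 2, fun t => ∑ l, H t l * (d l : ZMod 2), ∑ l, d l ^ 2)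

lemma dkey_geo {k m : ℕ} {H : Fin m → Fin k → ZMod 2}
    (hH : ∀ a c : Fin k → ZMod 2, a ≠ 0 → c ≠ 0 → (∀ t, ∑ l, H t l * a l = 0) →
      (∀ t, ∑ l, H t l * c l = 0) → ∃ l, a l ≠ 0 ∧ c l ≠ 0)
    {d1 d2 d3 : Fin k → ℤ} (h2 : dkey H d2 = dkey H d1) (h3 : dkey H d3 = dkey H d1)
    (n1 : d1 ≠ d2) (n3 : d3 ≠ d2) :
    (dkey H d1).2.2 < (dkey H (d1 - d2 + d3)).2.2 ∧ ∀ l, |d1 l - d2 l| ≤ 1 := by
  simp only [dkey, Prod.mk.injEq] at h2 h3 ⊢
  have c1 : ∀ l, d2 l / 2 = d1 l / 2 := fun l => congrFun h2.1 l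
  have c3 : ∀ l, d3 l / 2 = d1 l / 2 := fun l => congrFun h3.1 l
  refine ⟨?_, fun l => abs_le.2 ⟨by have := c1 l; omega, by have := c1 l; omega⟩⟩
  have hne : ∀ d d' : Fin k → ℤ, (∀ l, d l / 2 = d' l / 2) → d ≠ d' →
      (fun l => ((d l - d' l : ℤ) : ZMod 2)) ≠ 0 := fun d d' hd hn h0 => by
    obtain ⟨l, hl⟩ := Function.ne_iff.1 hn
    have h4 := (ZMod.intCast_zmod_eq_zero_iff_dvd _ 2).1 (congrFun h0 l)
    have h5 := hd l
    omega
  have hker : ∀ d d' : Fin k → ℤ, (∀ t, ∑ l, H t l * (d l : ZMod 2) = ∑ l, H t l * (d' l : ZMod 2))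
      → ∀ t, ∑ l, H t l * ((d l - d' l : ℤ) : ZMod 2) = 0 := fun d d' hd t => by
    simp only [Int.cast_sub, mul_sub, sum_sub_distrib, hd t, sub_self]
  obtain ⟨l0, a1, a3⟩ := hH _ _ (hne d1 d2 (fun l => (c1 l).symm) n1)
    (hne d3 d2 (fun l => (c3 l).trans (c1 l).symm) n3)
    (hker d1 d2 fun t => (congrFun h2.2.1 t).symm)
    (hker d3 d2 fun t => (congrFun h3.2.1 t).trans (congrFun h2.2.1 t).symm)
  have b1 : d1 l0 ≠ d2 l0 := fun e => a1 (by rw [e, sub_self, Int.cast_zero])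
  have b3 : d3 l0 ≠ d2 l0 := fun e => a3 (by rw [e, sub_self, Int.cast_zero])
  have hpos : 0 < ∑ l, (d1 l - d2 l) * (d3 l - d2 l) := by
    refine sum_pos' (fun l _ => ?_) ⟨l0, mem_univ _, ?_⟩
    · have e1 := c1 l
      have e3 := c3 l
      rcases Int.emod_two_eq_zero_or_one (d2 l) with e | e
      · exact mul_nonneg (by omega) (by omega)
      · exact mul_nonneg_of_nonpos_of_nonpos (by omega) (by omega)
    · have e1 := c1 l0
      have e3 := c3 l0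
      rcases Int.emod_two_eq_zero_or_one (d2 l0) with e | e
      · exact mul_pos (by omega) (by omega)
      · exact mul_pos_of_neg_of_neg (by omega) (by omega)
  have hsum : ∑ l, (d1 - d2 + d3) l ^ 2 = ∑ l, d1 l ^ 2 + ∑ l, d3 l ^ 2 - ∑ l, d2 l ^ 2 +
      2 * ∑ l, (d1 l - d2 l) * (d3 l - d2 l) := by
    rw [mul_sum, ← sum_add_distrib, ← sum_sub_distrib, ← sum_add_distrib]
    refine sum_congr rfl fun l _ => ?_
    simp only [Pi.add_apply, Pi.sub_apply]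
    ring
  rw [hsum, h2.2.2, h3.2.2]
  linarith

/-- The keys of the vectors in a box of side `64`. -/
noncomputable def box (k m : ℕ) (lo : Fin k → ℤ) : Finset ((Fin k → ℤ) × (Fin m → ZMod 2) × ℤ) :=
  (Fintype.piFinset fun l => Icc (lo l / 2) (lo l / 2 + 32)) ×ˢ univ ×ˢ Icc (0 : ℤ) (3969 * k)

lemma card_box (k m : ℕ) (lo : Fin k → ℤ) :
    (box k m lo).card = 33 ^ k * (2 ^ m * (3969 * k + 1)) := by
  have h1 : ∀ a : ℤ, (Icc a (a + 32)).card = 33 := fun a => by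
    rw [Int.card_Icc]
    omega
  have h2 : (Icc (0 : ℤ) (3969 * k)).card = 3969 * k + 1 := by
    rw [Int.card_Icc]
    omega
  simp [box, h1, h2]

lemma mem_box {k m : ℕ} (H : Fin m → Fin k → ZMod 2) {lo d : Fin k → ℤ}
    (h : ∀ l, lo l ≤ d l ∧ d l ≤ lo l + 63) (h' : ∀ l, |d l| ≤ 63) : dkey H d ∈ box k m lo := by
  refine mem_product.2 ⟨Fintype.mem_piFinset.2 fun l => mem_Icc.2 ?_,
    mem_product.2 ⟨mem_univ _, mem_Icc.2 ⟨?_, ?_⟩⟩⟩
  · have := h l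
    simp only [dkey]
    omega
  · simp only [dkey]
    positivity
  · have h1 : ∑ l, d l ^ 2 ≤ (univ : Finset (Fin k)).card • (3969 : ℤ) :=
      sum_le_card_nsmul _ _ _ fun l _ => by
        have h2 := abs_le.1 (h' l)
        nlinarith
    simp only [card_univ, Fintype.card_fin, nsmul_eq_mul] at h1
    simp only [dkey]
    linarith

end Pool.Agent.Lib.MP_5350f3_lc.Two
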