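import Pool.Agent.Lib.MP_5350f3_lc.TwoGeo

/-!
The protocol that recognises disjoint unions of at most two cliques, and its message length.
-/

namespace Pool.Agent.Lib.MP_5350f3_lc.Two

open Finset

/-- Finitely many bounded integer statistics fit in a short bit string. -/
lemma encode {α ι : Type} (T : Finset ι) (g : ι → α → ℤ) (B b : ℕ) (hb : 2 * B + 1 ≤ 2 ^ b)
    (hg : ∀ t ∈ T, ∀ a, |g t a| ≤ B) : ∃ μ : α → List Bool, (∀ a, (μ a).length = T.card * b) ∧
      ∀ a a', μ a = μ a' → ∀ t ∈ T, g t a = g t a' := by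
  classical
  have hc : Fintype.card (T → (Icc (-(B : ℤ)) B : Finset ℤ)) ≤
      Fintype.card (Fin (T.card * b) → Bool) := by
    have h1 : (Icc (-(B : ℤ)) B).card = 2 * B + 1 := by
      rw [Int.card_Icc]
      omega
    simp only [Fintype.card_pi, Fintype.card_coe, prod_const, card_univ, Fintype.card_bool,
      Fintype.card_fin, h1]
    rw [mul_comm T.card b, pow_mul]
    exact Nat.pow_le_pow_left hb _
  obtain ⟨e⟩ := Function.Embedding.nonempty_of_card_le hc
  refine ⟨fun a => List.ofFn (e fun t => ⟨g t a, mem_Icc.2 (abs_le.1 (hg t t.2 a))⟩),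
    fun a => List.length_ofFn, fun a a' h t ht => ?_⟩
  exact congrArg Subtype.val (congrFun (e.injective (List.ofFn_injective h)) ⟨t, ht⟩)

variable {V K : Type} [Fintype V] [DecidableEq V] [DecidableEq K]

/-- The sign vector of a set. -/
def sgn (S : Finset V) (t : V) : ℤ := if t ∈ S then 1 else -1

omit [Fintype V] in
lemma abs_sgn (S : Finset V) (t : V) : |sgn S t| ≤ 1 := by
  unfold sgn
  split_ifs <;> simp

omit [DecidableEq V] in
lemma abs_sum_le (p : V → Prop) [DecidablePred p] (f : V → ℤ) (c : ℤ) (hc : 0 ≤ c)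
    (h : ∀ v, |f v| ≤ c) : |∑ v ∈ univ.filter p, f v| ≤ Fintype.card V * c := by
  refine (abs_sum_le_sum_abs _ _).trans ((sum_le_card_nsmul _ _ c fun v _ => h v).trans ?_)
  rw [nsmul_eq_mul]
  exact mul_le_mul_of_nonneg_right (by exact_mod_cast card_le_univ _) hc

/-- The statistics sent by the vertex `w`. -/
def stat (key : V → V → K) (lev : K → ℤ) (w : V) : K ⊕ K ⊕ V ⊕ ℤ → Finset V → ℤ
  | .inl κ, S => ∑ j ∈ univ.filter (fun j => key w j = κ), sgn S j
  | .inr (.inl κ), S => ∑ i ∈ univ.filter (fun i => key i w = κ), sgn S i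
  | .inr (.inr (.inl v)), S => sgn S v
  | .inr (.inr (.inr r)), S =>
      ∑ i ∈ univ.filter (fun i => lev (key i w) = r), tau key (sgn S) i w * sgn S i

lemma abs_stat (key : V → V → K) (lev : K → ℤ) (w : V) (t : K ⊕ K ⊕ V ⊕ ℤ) (S : Finset V) :
    |stat key lev w t S| ≤ (Fintype.card V ^ 3 : ℕ) := by
  have h1 : (1 : ℤ) ≤ Fintype.card V := by exact_mod_cast Fintype.card_pos_iff.2 ⟨w⟩
  have h2 : (Fintype.card V : ℤ) * 1 ≤ Fintype.card V ^ 3 := by
    rw [mul_one]
    exact le_self_pow₀ h1 (by norm_num)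
  have hm : ∀ (a c : ℤ) (v : V), |a| ≤ c → |a * sgn S v| ≤ c := fun a c v h => by
    rw [abs_mul]
    exact (mul_le_of_le_one_right (abs_nonneg a) (abs_sgn S v)).trans h
  push_cast
  rcases t with κ | κ | v | r
  · exact (abs_sum_le _ _ 1 zero_le_one (abs_sgn S)).trans h2
  · exact (abs_sum_le _ _ 1 zero_le_one (abs_sgn S)).trans h2
  · exact (abs_sgn S v).trans (by linarith)
  · refine (abs_sum_le _ _ (Fintype.card V * (Fintype.card V * 1)) (by positivity) fun i =>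
      hm _ _ i (abs_sum_le _ _ _ (by positivity) fun v => abs_sum_le _ _ 1 zero_le_one fun u =>
        hm _ _ v (abs_sgn S u))).trans (le_of_eq (by ring))

theorem exists_msg (key : V → V → K) (lev : K → ℤ) (short : V → V → Prop)
    (geo : ∀ i j u v, key i v = key i j → key u v = key i j → v ≠ j → u ≠ i →
      lev (key i j) < lev (key u j) ∧ short j v)
    (T1 T2 : V → Finset K) (T3 : V → Finset V) (T4 : Finset ℤ) (h1 : ∀ i j, key i j ∈ T1 i)
    (h2 : ∀ i j, key i j ∈ T2 j) (h3 : ∀ j v, short j v → v ∈ T3 j)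
    (h4 : ∀ i j, lev (key i j) ∈ T4) (M b : ℕ)
    (hM : ∀ w, (T1 w).card + ((T2 w).card + ((T3 w).card + T4.card)) ≤ M)
    (hb : 2 * Fintype.card V ^ 3 + 1 ≤ 2 ^ b) :
    ∃ μ : V → Finset V → List Bool, (∀ w S, (μ w S).length ≤ M * b) ∧
      ∀ (N N' : V → Finset V) (x : V → ℤ), (∀ i, x i * x i = 1) → (∀ i j, j ∈ N i ↔ i ∈ N j) →
        (∀ i j, sgn (N' i) j = x i * x j) → (∀ i, μ i (N i) = μ i (N' i)) →
          ∀ i j, sgn (N i) j = x i * x j := by
  choose μ hl hμ using fun w => encode ((T1 w).disjSum ((T2 w).disjSum ((T3 w).disjSum T4)))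
    (stat key lev w) _ b hb fun t _ S => abs_stat key lev w t S
  refine ⟨μ, fun w S => ?_, fun N N' x hx hs hN he => ?_⟩
  · rw [hl, card_disjSum, card_disjSum, card_disjSum]
    exact Nat.mul_le_mul_right b (hM w)
  have hz : ∀ (p : V → Prop) [DecidablePred p] (f g : V → ℤ), (∀ v, ¬p v) →
      ∑ v ∈ univ.filter p, f v = ∑ v ∈ univ.filter p, g v := fun p _ f g hp =>
    sum_congr rfl fun v hv => absurd (mem_filter.1 hv).2 (hp v)
  refine core key lev short geo x hx (fun i => sgn (N i)) (fun i j => ?_) (fun i j => ?_)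
    (fun i κ => ?_) (fun j κ => ?_) (fun j v h => ?_) fun j r => ?_
  · unfold sgn
    split_ifs <;> simp
  · simp only [sgn, hs i j]
  · by_cases h : κ ∈ T1 i
    · simp only [← hN]
      exact hμ i _ _ (he i) (.inl κ) (by simpa using h)
    · exact hz _ _ _ fun v e => h (e ▸ h1 i v)
  · by_cases h : κ ∈ T2 j
    · simp only [← hN]
      exact hμ j _ _ (he j) (.inr (.inl κ)) (by simpa using h)
    · exact hz _ _ _ fun v e => h (e ▸ h2 v j)
  · rw [← hN]
    exact hμ j _ _ (he j) (.inr (.inr (.inl v))) (by simpa using h3 j v h)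
  · by_cases h : r ∈ T4
    · simp only [← hN]
      exact hμ j _ _ (he j) (.inr (.inr (.inr r))) (by simpa using h)
    · exact hz _ _ _ fun v e => h (e ▸ h4 v j)

theorem grid_msg (n k m : ℕ) (hn : n ≤ 64 ^ k) (hm : 3 ^ k < 4 ^ m) :
    ∃ μ : Fin n → Finset (Fin n) → List Bool,
      (∀ w S, (μ w S).length ≤ 4 * (33 ^ k * (2 ^ m * (3969 * k + 1))) * (18 * k + 2)) ∧
      ∀ (N N' : Fin n → Finset (Fin n)) (x : Fin n → ℤ), (∀ i, x i * x i = 1) →
        (∀ i j, j ∈ N i ↔ i ∈ N j) → (∀ i j, sgn (N' i) j = x i * x j) →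
        (∀ i, μ i (N i) = μ i (N' i)) → ∀ i j, sgn (N i) j = x i * x j := by
  classical
  obtain ⟨H, hH⟩ := exists_hash k m hm
  obtain ⟨e⟩ : Nonempty (Fin n ↪ (Fin k → Fin 64)) :=
    Function.Embedding.nonempty_of_card_le (by simpa using hn)
  obtain ⟨P, hP⟩ : ∃ P : Fin n → Fin k → ℤ, ∀ i l, P i l = (e i l : ℕ) := ⟨_, fun _ _ => rfl⟩
  have hr : ∀ i l, 0 ≤ P i l ∧ P i l ≤ 63 := fun i l => by
    have := (e i l).2
    rw [hP]
    omega
  have hinj : Function.Injective P := fun i j h => e.injective (funext fun l => by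
    have h1 := congrFun h l
    rw [hP, hP] at h1
    exact Fin.ext (by omega))
  have hab : ∀ i j l, |(P j - P i) l| ≤ 63 := fun i j l => by
    have h1 := hr i l
    have h2 := hr j l
    rw [Pi.sub_apply, abs_le]
    omega
  have hb1 : ∀ i j, dkey H (P j - P i) ∈ box k m (-P i) := fun i j =>
    mem_box H (fun l => by
      have h2 := hr j l
      simp only [Pi.sub_apply, Pi.neg_apply]
      omega) (hab i j)
  refine exists_msg (fun i j => dkey H (P j - P i)) (fun κ => κ.2.2)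
    (fun j v => ∀ l, |P j l - P v l| ≤ 1) (fun i j u v a1 a2 a3 a4 => ?_)
    (fun i => box k m (-P i)) (fun j => box k m fun l => P j l - 63)
    (fun j => univ.filter fun v => ∀ l, |P j l - P v l| ≤ 1) (Icc 0 (3969 * k)) hb1
    (fun i j => mem_box H (fun l => ?_) (hab i j)) (fun j v h => mem_filter.2 ⟨mem_univ _, h⟩)
    (fun i j => (mem_product.1 (mem_product.1 (hb1 i j)).2).2) _ _ (fun w => ?_) ?_
  · obtain ⟨b1, b2⟩ := dkey_geo hH a1 a2 (fun h => a3 (hinj (sub_left_inj.1 h)).symm)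
      fun h => a4 (hinj (sub_right_inj.1 h))
    rw [show P j - P i - (P v - P i) + (P v - P u) = P j - P u by abel] at b1
    refine ⟨b1, fun l => ?_⟩
    simpa using b2 l
  · have h1 := hr i l
    simp only [Pi.sub_apply]
    omega
  · have h1 : (univ.filter fun v => ∀ l, |P w l - P v l| ≤ 1).card ≤ 3 ^ k := by
      have h2 : ∀ a : ℤ, (Icc (a - 1) (a + 1)).card = 3 := fun a => by
        rw [Int.card_Icc]
        omega
      refine (card_le_card_of_injOn (t := Fintype.piFinset fun l => Icc (P w l - 1) (P w l + 1)) P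
        (fun v hv => ?_) hinj.injOn).trans (by simp [h2])
      refine mem_coe.2 (Fintype.mem_piFinset.2 fun l => mem_Icc.2 ?_)
      have h3 := abs_le.1 ((mem_filter.1 (mem_coe.1 hv)).2 l)
      omega
    have h2 : (Icc (0 : ℤ) (3969 * k)).card = 3969 * k + 1 := by
      rw [Int.card_Icc]
      omega
    have h3 : 3 ^ k ≤ 33 ^ k * (2 ^ m * (3969 * k + 1)) :=
      (Nat.pow_le_pow_left (by norm_num) k).trans (Nat.le_mul_of_pos_right _ (by positivity))
    have h4 : 3969 * k + 1 ≤ 33 ^ k * (2 ^ m * (3969 * k + 1)) :=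
      (Nat.le_mul_of_pos_left _ (by positivity)).trans (Nat.le_mul_of_pos_left _ (by positivity))
    rw [card_box, card_box, h2]
    omega
  · have h1 : n ^ 3 ≤ 2 ^ (18 * k) := by
      rw [show 2 ^ (18 * k) = (64 ^ k) ^ 3 by rw [← pow_mul, mul_comm k 3, pow_mul, pow_mul]; rfl]
      exact Nat.pow_le_pow_left hn 3
    have h2 : 0 < 2 ^ (18 * k) := by positivity
    rw [Fintype.card_fin, pow_add]
    omega

lemma length_bound (n : ℕ) (hn : n ≠ 0) : ∃ k m : ℕ, n ≤ 64 ^ k ∧ 3 ^ k < 4 ^ m ∧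
    ((4 * (33 ^ k * (2 ^ m * (3969 * k + 1))) * (18 * k + 2) : ℕ) : ℝ)
      ≤ 10 ^ 13 * (n : ℝ) ^ (0.98 : ℝ) := by
  obtain ⟨j, hj⟩ : ∃ j, j = Nat.log 64 n := ⟨_, rfl⟩
  obtain ⟨k, hk⟩ : ∃ k, k = j + 1 := ⟨_, rfl⟩
  obtain ⟨m', hm'⟩ : ∃ m', m' = Nat.log 4 (3 ^ k) := ⟨_, rfl⟩
  refine ⟨k, m' + 1, ?_, ?_, ?_⟩
  · rw [hk, hj]
    exact (Nat.lt_pow_succ_log_self (by norm_num) n).le
  · rw [hm']
    exact Nat.lt_pow_succ_log_self (by norm_num) _
  have a1 : (4 : ℝ) ^ m' ≤ 3 ^ k := by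
    exact_mod_cast hm' ▸ Nat.pow_log_le_self 4 (x := 3 ^ k) (by positivity)
  have a2 : (2 : ℝ) ^ m' ≤ (7 / 4) ^ k := by
    refine le_of_pow_le_pow_left₀ (n := 2) two_ne_zero (by positivity) ?_
    rw [← pow_mul, ← pow_mul, mul_comm m', mul_comm k, pow_mul, pow_mul]
    exact (le_of_eq_of_le (by norm_num) a1).trans (pow_le_pow_left₀ (by norm_num) (by norm_num) k)
  have a3 : (k : ℝ) + 1 ≤ 200 * (1 + 1 / 200) ^ k := by
    linarith [one_add_mul_le_pow (show (-2 : ℝ) ≤ 1 / 200 by norm_num) k]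
  have a4 : (64 : ℝ) ^ j ≤ n := by exact_mod_cast hj ▸ Nat.pow_log_le_self 64 hn
  have a5 : (58.4 : ℝ) ≤ 64 ^ (0.98 : ℝ) := by
    refine le_of_pow_le_pow_left₀ (n := 50) (by norm_num) (by positivity) ?_
    rw [← Real.rpow_natCast ((64 : ℝ) ^ (0.98 : ℝ)), ← Real.rpow_mul (by norm_num),
      show (0.98 : ℝ) * (50 : ℕ) = (49 : ℕ) by norm_num, Real.rpow_natCast]
    norm_num
  have a6 : (58.4 : ℝ) ^ j ≤ (n : ℝ) ^ (0.98 : ℝ) := by
    refine (pow_le_pow_left₀ (by norm_num) a5 j).trans ?_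
    rw [Real.rpow_pow_comm (by norm_num)]
    exact Real.rpow_le_rpow (by positivity) a4 (by norm_num)
  have hk0 : (0 : ℝ) ≤ k := Nat.cast_nonneg k
  have a7 : (33 : ℝ) ^ k * (7 / 4) ^ k * ((1 + 1 / 200) ^ k * (1 + 1 / 200) ^ k) ≤ 58.4 ^ k := by
    rw [← mul_pow, ← mul_pow, ← mul_pow]
    exact pow_le_pow_left₀ (by norm_num) (by norm_num) k
  push_cast
  calc (4 : ℝ) * (33 ^ k * (2 ^ (m' + 1) * (3969 * k + 1))) * (18 * k + 2)
      ≤ 4 * (33 ^ k * ((7 / 4) ^ k * 2 * (3969 * (200 * (1 + 1 / 200) ^ k)))) *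
        (18 * (200 * (1 + 1 / 200) ^ k)) := by
        rw [pow_succ]
        gcongr <;> linarith
    _ = 4 * 2 * 3969 * 200 * 18 * 200 *
        (33 ^ k * (7 / 4) ^ k * ((1 + 1 / 200) ^ k * (1 + 1 / 200) ^ k)) := by ring
    _ ≤ 4 * 2 * 3969 * 200 * 18 * 200 * (58.4 ^ j * 58.4) := by
        rw [← pow_succ, ← hk]
        gcongr
    _ ≤ 4 * 2 * 3969 * 200 * 18 * 200 * ((n : ℝ) ^ (0.98 : ℝ) * 58.4) := by gcongr
    _ ≤ _ := by nlinarith [Real.rpow_nonneg (Nat.cast_nonneg n : (0 : ℝ) ≤ n) 0.98]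

lemma mem_closedNbhd {n : ℕ} {G : SimpleGraph (Fin n)} {i j : Fin n} :
    j ∈ closedNbhd G i ↔ j = i ∨ G.Adj i j := by
  simp [closedNbhd]

lemma reach_iff {n : ℕ} {G : SimpleGraph (Fin n)} (h : ¬HasInducedP3 G) {i j : Fin n} :
    G.Reachable i j ↔ j ∈ closedNbhd G i := by
  rw [mem_closedNbhd]
  constructor
  · rintro ⟨w⟩
    induction w with
    | nil => exact Or.inl rfl
    | @cons a b c hab _ ih =>
      rcases ih with rfl | hbc
      · exact Or.inr hab
      · by_contra h1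
        push Not at h1
        exact h ⟨a, b, c, hab, hbc, h1.1.symm, h1.2⟩
  · rintro (rfl | h1)
    · rfl
    · exact h1.reachable

lemma exists_sign {n : ℕ} {G : SimpleGraph (Fin n)} (h : ¬HasInducedP3 G)
    (hc : Nat.card G.ConnectedComponent ≤ 2) : ∃ x : Fin n → ℤ, (∀ i, x i * x i = 1) ∧
      ∀ i j, sgn (closedNbhd G i) j = x i * x j := by
  classical
  have := Fintype.ofFinite G.ConnectedComponent
  obtain ⟨e⟩ : Nonempty (G.ConnectedComponent ↪ Bool) :=
    Function.Embedding.nonempty_of_card_le (by simpa using hc)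
  refine ⟨fun i => if e (G.connectedComponentMk i) then 1 else -1, fun i => ?_, fun i j => ?_⟩
  · simp only
    split_ifs <;> simp
  · have h1 : j ∈ closedNbhd G i ↔
        e (G.connectedComponentMk i) = e (G.connectedComponentMk j) := by
      rw [← reach_iff h, e.apply_eq_iff_eq, SimpleGraph.ConnectedComponent.eq]
    simp only [sgn, h1]
    cases e (G.connectedComponentMk i) <;> cases e (G.connectedComponentMk j) <;> simp

theorem two_cliques (n : ℕ) :
    ∃ (μ : Fin n → Finset (Fin n) → List Bool) (R : (Fin n → List Bool) → Bool),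
      (∀ i S, ((μ i S).length : ℝ) ≤ 10 ^ 13 * (n : ℝ) ^ (0.98 : ℝ)) ∧
      ∀ G : SimpleGraph (Fin n), R (fun i => μ i (closedNbhd G i)) = true ↔
        HasInducedP3 G ∨ 3 ≤ Nat.card G.ConnectedComponent := by
  classical
  obtain ⟨μ, h1, h2⟩ : ∃ μ : Fin n → Finset (Fin n) → List Bool,
      (∀ i S, ((μ i S).length : ℝ) ≤ 10 ^ 13 * (n : ℝ) ^ (0.98 : ℝ)) ∧
      ∀ (N N' : Fin n → Finset (Fin n)) (x : Fin n → ℤ), (∀ i, x i * x i = 1) →
        (∀ i j, j ∈ N i ↔ i ∈ N j) → (∀ i j, sgn (N' i) j = x i * x j) →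
        (∀ i, μ i (N i) = μ i (N' i)) → ∀ i j, sgn (N i) j = x i * x j := by
    rcases Nat.eq_zero_or_pos n with rfl | hn
    · exact ⟨fun i => i.elim0, fun i => i.elim0, fun _ _ _ _ _ _ _ i => i.elim0⟩
    obtain ⟨k, m, a1, a2, a3⟩ := length_bound n hn.ne'
    obtain ⟨μ, b1, b2⟩ := grid_msg n k m a1 a2
    exact ⟨μ, fun i S => (Nat.cast_le.2 (b1 i S)).trans a3, b2⟩
  refine ⟨μ, fun M => decide (¬∃ H : SimpleGraph (Fin n),
    ¬(HasInducedP3 H ∨ 3 ≤ Nat.card H.ConnectedComponent) ∧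
      M = fun i => μ i (closedNbhd H i)), h1, fun G => ?_⟩
  rw [decide_eq_true_iff]
  refine ⟨fun h => by_contra fun h' => h ⟨G, h', rfl⟩, ?_⟩
  rintro h ⟨H, hH, he⟩
  obtain ⟨x, hx, hs⟩ := exists_sign (fun h' => hH (Or.inl h')) (by
    by_contra h'
    exact hH (Or.inr (by omega)))
  have h3 := h2 (closedNbhd G) (closedNbhd H) x hx
    (fun i j => by simp only [mem_closedNbhd, eq_comm, G.adj_comm]) hs (congrFun he)
  have h4 : G = H := by
    ext i j
    have h5 := (h3 i j).trans (hs i j).symm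
    have h6 : j ∈ closedNbhd G i ↔ j ∈ closedNbhd H i := by
      unfold sgn at h5
      split_ifs at h5 with a b b <;> simp_all
    rw [mem_closedNbhd, mem_closedNbhd] at h6
    by_cases h7 : j = i
    · simp [h7]
    · simpa [h7] using h6
  exact hH (h4 ▸ h)

end Pool.Agent.Lib.MP_5350f3_lc.Two
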